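import Pool.Agent.Helper481.Sq

set_option autoImplicit false

/-!
# The square roots of the primes in almost all unit intervals, in all classes to all moduli

Let `A` be fixed and let `N` be large. For all but at most `N / (log N) ^ A` of the integers `m ≤ N` the following holds.
(1) For all `q ≤ (log N) ^ A` every prime `p` not dividing `q` with `m ≤ √p < m + 1` is followed by a prime `s ≡ p (mod q)` with
`√s - √p ≤ 1 / (log N) ^ A`. (`q = 1`: the differences of the square roots of consecutive primes are small there, the question being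
whether they tend to zero.)
(2) The square roots of the primes in `(m, m + 1]` are equidistributed (with respect to the measure `t dt / log t`) in mean square over all
reduced classes to ALL moduli `q ≤ Q = N exp (- B (log log N) ^ 2)`: for all choices of `α = α(q, r) ∈ [0, 1]` the number of the primes
`p ≡ r (mod q)` with `m < √p ≤ m + α` is `((m + α) ^ 2 - m ^ 2) / (2 φ(q) log m)` up to an error whose squares, summed over all these
classes, have the sum at most `N ^ 2 / (log N) ^ A`.

Proof. `Pool.Agent.Helper481.Sq.squares` (from `Pool.Agent.helper24_UT.Ch.t_R28`: Mikawa's method and the large sieve).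
-/

namespace Pool.Agent.Results.MP_3998cf_nt.RootsEquidistributed

open Finset Pool.Agent.Helper481

/-- the number of the primes `p ≡ r (mod q)` (`r < q`) with `m < √p ≤ m + α` -/
noncomputable def count (q r m : ℕ) (α : ℝ) : ℕ :=
  {p : ℕ | p.Prime ∧ p % q = r ∧ (m : ℝ) < Real.sqrt p ∧ Real.sqrt p ≤ m + α}.ncard

/-- For all `Q ≤ N exp (- B (log log N) ^ 2)` and all choices of the numbers `α q r ∈ [0, 1]` the sum, over all `q ≤ Q` and all
reduced residues `r` modulo `q`, of the squares of `count q r m α - ((m + α) ^ 2 - m ^ 2) / (2 φ(q) log m)`, `α = α q r`, is at most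
`N ^ 2 / (log N) ^ A`. -/
def Equidistributed (A B N m : ℕ) : Prop := ∀ Q : ℕ, (Q : ℝ) ≤ N * Real.exp (-(B * Real.log (Real.log N) ^ 2)) →
  ∀ α : ℕ → ℕ → ℝ, (∀ q r, 0 ≤ α q r ∧ α q r ≤ 1) →
    ∑ q ∈ Icc 1 Q, ∑ r ∈ (range q).filter (fun r => r.Coprime q),
      ((count q r m (α q r) : ℝ) - ((m + α q r) ^ 2 - m ^ 2) / (2 * Nat.totient q * Real.log m)) ^ 2 ≤
        (N : ℝ) ^ 2 / (Real.log N) ^ A

/-- For all `q ≤ (log N) ^ A` every prime `p` not dividing `q` with `m ≤ √p < m + 1` is followed by a prime `s ≡ p (mod q)` with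
`√s - √p ≤ 1 / (log N) ^ A`. -/
def SmallDifferences (A N m : ℕ) : Prop := ∀ q p : ℕ, 1 ≤ q → (q : ℝ) ≤ (Real.log N) ^ A → p.Prime → ¬ p ∣ q →
  (m : ℝ) ≤ Real.sqrt p → Real.sqrt p < m + 1 →
    ∃ s : ℕ, s.Prime ∧ s % q = p % q ∧ p < s ∧ Real.sqrt s - Real.sqrt p ≤ 1 / (Real.log N) ^ A

/-- one term of the mean square -/
lemma single {A B X K u : ℕ} (h : Pool.Agent.helper24_UT.Good28 A B X K u) {q r y : ℕ} (hq : 1 ≤ q)
    (hqK : (q : ℝ) ≤ K * Real.exp (-(B * Real.log (Real.log X) ^ 2))) (hr : r < q) (hc : r.Coprime q) (hy : y ≤ K) :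
    ((Thin.count q r u y : ℝ) - Thin.logSum u y / Nat.totient q) ^ 2 ≤ (K : ℝ) ^ 2 / (Real.log X) ^ A := by
  have h1 := Thin.good_classes h q hqK (fun _ _ => y) (fun _ _ => hy)
  refine le_trans ?_ h1
  have h2 : ((Thin.count q r u y : ℝ) - Thin.logSum u y / Nat.totient q) ^ 2 ≤
      ∑ r ∈ (range q).filter (fun r => r.Coprime q), ((Thin.count q r u y : ℝ) - Thin.logSum u y / Nat.totient q) ^ 2 :=
    single_le_sum (f := fun r => ((Thin.count q r u y : ℝ) - Thin.logSum u y / Nat.totient q) ^ 2)
      (fun _ _ => sq_nonneg _) (mem_filter.2 ⟨mem_range.2 hr, hc⟩)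
  refine h2.trans ?_
  exact single_le_sum (f := fun q => ∑ r ∈ (range q).filter (fun r => r.Coprime q),
    ((Thin.count q r u y : ℝ) - Thin.logSum u y / Nat.totient q) ^ 2)
    (fun _ _ => sum_nonneg fun _ _ => sq_nonneg _) (mem_Icc.2 ⟨hq, le_rfl⟩)

lemma card_cop (q : ℕ) : ((range q).filter (fun r => r.Coprime q)).card = Nat.totient q := by
  rw [Nat.totient_eq_card_coprime]
  congr 1
  ext r
  simp only [mem_filter, Nat.coprime_comm]

/-- the primes counted by `count` form an initial segment of the window at `m ^ 2` -/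
lemma count_eq {q r m : ℕ} {α : ℝ} (hα0 : 0 ≤ α) (hα1 : α ≤ 1) (hm : 1 ≤ m) :
    ∃ y : ℕ, y ≤ 2 * m + 1 ∧ |(y : ℝ) - ((m + α) ^ 2 - m ^ 2)| ≤ 1 ∧ count q r m α = Thin.count q r (m ^ 2) y := by
  have hm0 : (1 : ℝ) ≤ m := by exact_mod_cast hm
  have h1 : (((m ^ 2 : ℕ)) : ℝ) ≤ ((m : ℝ) + α) ^ 2 := by
    push_cast
    nlinarith
  have h2 : m ^ 2 ≤ ⌊((m : ℝ) + α) ^ 2⌋₊ := Nat.le_floor h1
  have h3 : ⌊((m : ℝ) + α) ^ 2⌋₊ ≤ (m + 1) ^ 2 := by
    apply Nat.floor_le_of_le
    push_cast
    nlinarith
  obtain ⟨y, hy⟩ := Nat.exists_eq_add_of_le h2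
  have hfl := Nat.floor_le (show (0 : ℝ) ≤ ((m : ℝ) + α) ^ 2 by positivity)
  have hfl2 := Nat.lt_floor_add_one (((m : ℝ) + α) ^ 2)
  rw [hy] at hfl hfl2 h3
  push_cast at hfl hfl2
  refine ⟨y, ?_, ?_, ?_⟩
  · have : (m + 1) ^ 2 = m ^ 2 + (2 * m + 1) := by ring
    omega
  · rw [abs_le]
    constructor <;> linarith
  · have h4 : {p : ℕ | p.Prime ∧ p % q = r ∧ (m : ℝ) < Real.sqrt p ∧ Real.sqrt p ≤ m + α} =
        (((Ioc (m ^ 2) (m ^ 2 + y)).filter (fun p => p.Prime ∧ p % q = r) : Finset ℕ) : Set ℕ) := by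
      ext p
      have h5 : (m : ℝ) < Real.sqrt p ↔ m ^ 2 < p := by
        rw [Real.lt_sqrt (Nat.cast_nonneg m)]
        exact_mod_cast Iff.rfl
      have h6 : Real.sqrt p ≤ m + α ↔ p ≤ m ^ 2 + y := by
        rw [Real.sqrt_le_left (by positivity), ← hy]
        exact (Nat.le_floor_iff (by positivity)).symm
      simp only [Set.mem_ofPred_eq, coe_filter, mem_Ioc]
      rw [h5, h6]
      tauto
    unfold count Thin.count
    rw [h4, Set.ncard_coe_finset]

/-- the expected number in an initial segment -/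
lemma logSum_sq {m y : ℕ} (hm : 3 ≤ m) (hy : y ≤ 2 * m + 1) :
    |Thin.logSum (m ^ 2) y - y / (2 * Real.log m)| ≤ 6 := by
  have hm0 : (3 : ℝ) ≤ m := by exact_mod_cast hm
  have hl1 : 1 ≤ Real.log m := by
    have h4 : Real.exp 1 ≤ m := by linarith [Real.exp_one_lt_d9]
    calc (1 : ℝ) = Real.log (Real.exp 1) := (Real.log_exp 1).symm
      _ ≤ _ := Real.log_le_log (Real.exp_pos 1) h4
  have hj : ∀ j : ℕ, j ∈ Ioc (m ^ 2) (m ^ 2 + y) → (m : ℝ) ^ 2 ≤ (j : ℝ) ∧ (j : ℝ) ≤ (m + 1) ^ 2 := by
    intro j hj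
    rw [mem_Ioc] at hj
    have h1 : ((m ^ 2 : ℕ) : ℝ) ≤ j := by exact_mod_cast hj.1.le
    have h2 : (j : ℝ) ≤ ((m ^ 2 + (2 * m + 1) : ℕ) : ℝ) := by exact_mod_cast hj.2.trans (by omega)
    push_cast at h1 h2
    exact ⟨h1, by nlinarith⟩
  have hlow : ∀ j : ℕ, j ∈ Ioc (m ^ 2) (m ^ 2 + y) → 2 * Real.log m ≤ Real.log (j : ℝ) := by
    intro j hjj
    calc 2 * Real.log m = Real.log ((m : ℝ) ^ 2) := by rw [Real.log_pow]; norm_num
      _ ≤ _ := Real.log_le_log (by positivity) (hj j hjj).1
  have h3 := Thin.logSum_near (u := m ^ 2) (y := y) (l := 2 * Real.log m) (ε := 2 / m) (by linarith) ?_ ?_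
  · refine h3.trans ?_
    have h4 : (y : ℝ) ≤ 2 * m + 1 := by exact_mod_cast hy
    rw [mul_div_assoc', div_le_iff₀ (by linarith)]
    linarith
  · intro j hjj
    linarith [hlow j hjj]
  · intro j hjj
    obtain ⟨h4, h5⟩ := hj j hjj
    have h6 : Real.log (j : ℝ) ≤ 2 * Real.log m + 2 / m := by
      have h7 : Real.log (j : ℝ) ≤ Real.log (((m : ℝ) * (1 + 1 / m)) ^ 2) := by
        apply Real.log_le_log (by nlinarith)
        have : (m : ℝ) * (1 + 1 / m) = m + 1 := by field_simp
        rw [this]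
        exact h5
      rw [Real.log_pow, Real.log_mul (by positivity) (by positivity)] at h7
      have h8 := Real.log_le_sub_one_of_pos (show 0 < 1 + 1 / (m : ℝ) by positivity)
      have h9 : 2 / (m : ℝ) = 2 * (1 / m) := by ring
      push_cast at h7
      linarith
    have h9 := hlow j hjj
    have h10 : 0 ≤ 2 / (m : ℝ) := by positivity
    rw [abs_le]
    constructor <;> linarith

/-- the conditions for `N` -/
lemma large (A B : ℕ) : ∃ N₀ : ℕ, ∀ N : ℕ, N₀ ≤ N →
    64 ≤ Real.log N ∧ 400 * (Real.log N) ^ A ≤ N ∧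
      (Real.log N) ^ A ≤ N * Real.exp (-(((4 * B : ℕ) : ℝ) * Real.log (Real.log N) ^ 2)) ∧
      N * Real.exp (-(((4 * B : ℕ) : ℝ) * Real.log (Real.log N) ^ 2)) ≤
        ((8 * N : ℕ) : ℝ) * Real.exp (-(B * Real.log (Real.log ((4 * N ^ 2 : ℕ) : ℝ)) ^ 2)) := by
  have hlog : Filter.Tendsto (fun N : ℕ => Real.log (N : ℝ)) Filter.atTop Filter.atTop :=
    Real.tendsto_log_atTop.comp tendsto_natCast_atTop_atTop
  have hcast := tendsto_natCast_atTop_atTop (R := ℝ)
  have e1 : ∀ᶠ N : ℕ in Filter.atTop, 64 ≤ Real.log N := hlog.eventually_ge_atTop _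
  have e2 : ∀ᶠ x : ℝ in Filter.atTop, ‖Real.log x ^ A‖ ≤ 1 / 400 * ‖x‖ :=
    (Real.isLittleO_pow_log_id_atTop (n := A)).bound (by positivity)
  have e4 : ∀ᶠ x : ℝ in Filter.atTop, ‖Real.log x ^ 2‖ ≤ 1 / (4 * B + A + 1 : ℝ) * ‖x‖ :=
    (Real.isLittleO_pow_log_id_atTop (n := 2)).bound (by positivity)
  have e2' := hcast.eventually e2
  have e4' := hlog.eventually e4
  obtain ⟨N₁, hN₁⟩ := Filter.eventually_atTop.1 (e1.and (e2'.and e4'))
  refine ⟨N₁, fun N hN => ?_⟩
  obtain ⟨h1, h3, h4⟩ := hN₁ N hN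
  have hX0 : (0 : ℝ) < N := by
    rcases Nat.eq_zero_or_pos N with h | h
    · subst h
      norm_num at h1
    · exact_mod_cast h
  have hL0 : 0 < Real.log N := by linarith
  rw [Real.norm_eq_abs, Real.norm_eq_abs, abs_of_nonneg (by positivity), abs_of_nonneg (by positivity)] at h3
  rw [Real.norm_eq_abs, Real.norm_eq_abs, abs_of_nonneg (by positivity), abs_of_nonneg (by linarith)] at h4
  have hB : (0 : ℝ) ≤ B := Nat.cast_nonneg B
  have hA : (0 : ℝ) ≤ A := Nat.cast_nonneg A
  have h5 : (4 * B + A + 1) * Real.log (Real.log N) ^ 2 ≤ Real.log N := by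
    rw [one_div, inv_mul_eq_div, le_div_iff₀ (by positivity)] at h4
    linarith
  have hℓ : 1 ≤ Real.log (Real.log N) := by
    calc (1 : ℝ) = Real.log (Real.exp 1) := (Real.log_exp 1).symm
      _ ≤ _ := Real.log_le_log (Real.exp_pos 1) (by linarith [Real.exp_one_lt_d9])
  refine ⟨h1, by linarith, ?_, ?_⟩
  · have h13 : Real.log N ^ A = Real.exp (A * Real.log (Real.log N)) := by
      rw [mul_comm, Real.exp_mul, Real.exp_log hL0, Real.rpow_natCast]
    have h14 : (N : ℝ) = Real.exp (Real.log N) := (Real.exp_log hX0).symm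
    calc Real.log N ^ A = Real.exp (A * Real.log (Real.log N)) := h13
      _ ≤ Real.exp (Real.log N + -(((4 * B : ℕ) : ℝ) * Real.log (Real.log N) ^ 2)) := by
        apply Real.exp_le_exp.2
        push_cast
        have h15 : Real.log (Real.log N) ≤ Real.log (Real.log N) ^ 2 := by nlinarith
        nlinarith [mul_le_mul_of_nonneg_left h15 hA]
      _ = _ := by rw [Real.exp_add, ← h14]
  · have hXr : ((4 * N ^ 2 : ℕ) : ℝ) = 4 * (N : ℝ) ^ 2 := by push_cast; ring
    rw [hXr]
    have e : Real.log (4 * (N : ℝ) ^ 2) = 2 * Real.log 2 + 2 * Real.log N := by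
      rw [Real.log_mul (by norm_num) (by positivity), Real.log_pow, show (4 : ℝ) = 2 ^ 2 by norm_num, Real.log_pow]
      push_cast
      ring
    have h6 : Real.log 2 ≤ 1 := by linarith [Real.log_two_lt_d9]
    have h6' : 0 < Real.log 2 := Real.log_pos (by norm_num)
    have h7 : Real.log (4 * (N : ℝ) ^ 2) ≤ Real.log N ^ 2 := by
      rw [e]
      nlinarith
    have h8 : 1 ≤ Real.log (4 * (N : ℝ) ^ 2) := by
      rw [e]
      linarith
    have h9 : Real.log (Real.log (4 * (N : ℝ) ^ 2)) ≤ 2 * Real.log (Real.log N) := by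
      calc Real.log (Real.log (4 * (N : ℝ) ^ 2)) ≤ Real.log (Real.log N ^ 2) := Real.log_le_log (by linarith) h7
        _ = _ := by rw [Real.log_pow]; push_cast; ring
    have h10 : 0 ≤ Real.log (Real.log (4 * (N : ℝ) ^ 2)) := Real.log_nonneg h8
    have h11 : Real.log (Real.log (4 * (N : ℝ) ^ 2)) ^ 2 ≤ 4 * Real.log (Real.log N) ^ 2 := by
      calc _ ≤ (2 * Real.log (Real.log N)) ^ 2 := pow_le_pow_left₀ h10 h9 2
        _ = _ := by ring
    have h12 : Real.exp (-(((4 * B : ℕ) : ℝ) * Real.log (Real.log N) ^ 2)) ≤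
        Real.exp (-(B * Real.log (Real.log (4 * (N : ℝ) ^ 2)) ^ 2)) := by
      apply Real.exp_le_exp.2
      push_cast
      nlinarith
    calc (N : ℝ) * Real.exp (-(((4 * B : ℕ) : ℝ) * Real.log (Real.log N) ^ 2)) ≤
          N * Real.exp (-(B * Real.log (Real.log (4 * (N : ℝ) ^ 2)) ^ 2)) := mul_le_mul_of_nonneg_left h12 hX0.le
      _ ≤ _ := by
        apply mul_le_mul_of_nonneg_right _ (Real.exp_pos _).le
        push_cast
        linarith

open Classical in
/-- **The square roots of the primes in almost all unit intervals, in all classes to all moduli.** -/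
theorem result (A : ℕ) : ∃ B N₀ : ℕ, ∀ N : ℕ, N₀ ≤ N →
    (((Icc 1 N).filter (fun m => ¬ (SmallDifferences A N m ∧ Equidistributed A B N m))).card : ℝ) ≤
      N / (Real.log N) ^ A := by
  obtain ⟨B, N₁, hmain⟩ := Sq.squares (6 * A + 7)
  obtain ⟨N₂, hlarge⟩ := large (3 * A + 8) B
  refine ⟨4 * B, max (max N₁ N₂) 8, fun N hN => ?_⟩
  have hN1 : N₁ ≤ N := (le_max_left _ _).trans ((le_max_left _ _).trans hN)
  obtain ⟨hL64, hLN, hQA, hQ2⟩ := hlarge N ((le_max_right _ _).trans ((le_max_left _ _).trans hN))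
  have hN8 : 8 ≤ N := (le_max_right _ _).trans hN
  have hN0 : (0 : ℝ) < N := by exact_mod_cast (by omega : 0 < N)
  have hexc := hmain N hN1
  set L := Real.log N with hLdef
  have hL0 : 0 < L := by linarith
  have hone : ∀ n : ℕ, 1 ≤ L ^ n := fun n => one_le_pow₀ (by linarith)
  have hpowle : ∀ {a b : ℕ}, a ≤ b → L ^ a ≤ L ^ b := fun h => pow_le_pow_right₀ (by linarith) h
  have hlog2 : Real.log 2 ≤ 1 := by linarith [Real.log_two_lt_d9]
  have hlog2' : 0 < Real.log 2 := Real.log_pos (by norm_num)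
  set X : ℕ := 4 * N ^ 2 with hX
  have hXr : (X : ℝ) = 4 * (N : ℝ) ^ 2 := by rw [hX]; push_cast; ring
  set LX := Real.log X with hLX
  have e : LX = 2 * Real.log 2 + 2 * L := by
    rw [hLX, hXr, Real.log_mul (by norm_num) (by positivity), Real.log_pow, show (4 : ℝ) = 2 ^ 2 by norm_num, Real.log_pow]
    push_cast
    ring
  have hLLX : L ≤ LX := by linarith
  have hpowX : ∀ n : ℕ, L ^ n ≤ LX ^ n := fun n => pow_le_pow_left₀ hL0.le hLLX n
  set T := (N : ℝ) / L ^ (A + 1) with hT
  have hT0 : 0 < T := by positivity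
  have hgood : ∀ m : ℕ, m ≤ N → T < m → Pool.Agent.helper24_UT.Good28 (6 * A + 7 + 1) B X (8 * N) (m ^ 2) →
      SmallDifferences A N m ∧ Equidistributed A (4 * B) N m := by
    intro m hmN hTm hg
    have hmN' : (m : ℝ) ≤ N := by exact_mod_cast hmN
    have hmL : (N : ℝ) ≤ m * L ^ (A + 1) := by
      have := hTm.le
      rwa [hT, div_le_iff₀ (by positivity)] at this
    have hmbig : L ^ (2 * A + 7) ≤ m := by
      have h1 : L ^ (2 * A + 7) * L ^ (A + 1) ≤ m * L ^ (A + 1) := by
        rw [← pow_add]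
        calc L ^ (2 * A + 7 + (A + 1)) = L ^ (3 * A + 8) := by ring_nf
          _ ≤ N := by linarith [hone (3 * A + 8)]
          _ ≤ _ := hmL
      exact le_of_mul_le_mul_right h1 (by positivity)
    have hm64 : (64 : ℝ) ≤ m := by
      have h1 : L ≤ L ^ (2 * A + 7) := le_self_pow₀ (by linarith) (by omega)
      linarith
    have hm3 : 3 ≤ m := by
      have : (3 : ℝ) ≤ m := by linarith
      exact_mod_cast this
    have hlogm1 : 1 ≤ Real.log m := by
      have h4 : Real.exp 1 ≤ m := by linarith [Real.exp_one_lt_d9]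
      calc (1 : ℝ) = Real.log (Real.exp 1) := (Real.log_exp 1).symm
        _ ≤ _ := Real.log_le_log (Real.exp_pos 1) h4
    constructor
    · -- (1)
      intro q p hq hqL hp hpq hmp hpm
      have hp1 : m ^ 2 ≤ p := by
        have h1 : ((m : ℝ)) ^ 2 ≤ p := by
          rw [← Real.le_sqrt' (by linarith)]
          exact hmp
        exact_mod_cast h1
      have hp2 : p < (m + 1) ^ 2 := by
        have h1 : (p : ℝ) < ((m : ℝ) + 1) ^ 2 := by
          rw [← Real.sqrt_lt' (by positivity)]
          exact hpm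
        exact_mod_cast h1
      have hmm : (m + 1) ^ 2 = m ^ 2 + 2 * m + 1 := by ring
      set δ : ℝ := 1 / L ^ A with hδ
      have hδ0 : 0 < δ := by positivity
      have hδ1 : δ ≤ 1 := by
        rw [hδ, div_le_one (by positivity)]
        exact hone A
      obtain ⟨h, hh1, hh2⟩ : ∃ h : ℕ, δ * m ≤ h ∧ (h : ℝ) ≤ 2 * δ * m := by
        refine ⟨⌊2 * δ * m⌋₊, ?_, Nat.floor_le (by positivity)⟩
        have h1 := Nat.lt_floor_add_one (2 * δ * (m : ℝ))
        have h2 : 1 ≤ δ * m := by
          rw [hδ, one_div, inv_mul_eq_div, le_div_iff₀ (by positivity), one_mul]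
          exact (hpowle (by omega)).trans hmbig
        linarith
      have hh3 : h ≤ 2 * m := by
        have : (h : ℝ) ≤ 2 * m := by nlinarith
        exact_mod_cast this
      obtain ⟨y, hy⟩ := Nat.exists_eq_add_of_le hp1
      have hqK : (q : ℝ) ≤ ((8 * N : ℕ) : ℝ) * Real.exp (-(B * Real.log (Real.log X) ^ 2)) := by
        refine le_trans ?_ hQ2
        refine le_trans ?_ hQA
        exact hqL.trans (hpowle (by omega))
      have hcop : (p % q).Coprime q := by
        have h1 : Nat.Coprime p q := (Nat.Prime.coprime_iff_not_dvd hp).2 hpq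
        have h2 : Nat.gcd q p = Nat.gcd (p % q) q := Nat.gcd_rec q p
        unfold Nat.Coprime
        rw [← h2, Nat.gcd_comm]
        exact h1
      have hr : p % q < q := Nat.mod_lt _ hq
      have s1 := single hg hq hqK hr hcop (y := y) (by omega)
      have s2 := single hg hq hqK hr hcop (y := y + h) (by omega)
      have hφ0 : (0 : ℝ) < Nat.totient q := by exact_mod_cast Nat.totient_pos.2 hq
      have hφL : (Nat.totient q : ℝ) ≤ L ^ A := le_trans (by exact_mod_cast Nat.totient_le q) hqL
      have habs : ∀ {z : ℝ}, z ^ 2 ≤ ((8 * N : ℕ) : ℝ) ^ 2 / LX ^ (6 * A + 7 + 1) → |z| ≤ 8 * N / L ^ (3 * A + 4) := by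
        intro z hz
        apply abs_le_of_sq_le_sq _ (by positivity)
        refine hz.trans ?_
        rw [div_pow, ← pow_mul, show (3 * A + 4) * 2 = 6 * A + 7 + 1 by ring]
        push_cast
        exact div_le_div_of_nonneg_left (by positivity) (by positivity) (hpowX _)
      have a1 := (abs_le.1 (habs s1)).2
      have a2 := (abs_le.1 (habs s2)).1
      -- the expected number in `(p, p + h]`
      have hdiff : Thin.logSum (m ^ 2) (y + h) - Thin.logSum (m ^ 2) y = Thin.logSum p h := by
        unfold Thin.logSum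
        rw [← add_assoc, ← hy, ← Ioc_union_Ioc_eq_Ioc hp1 (Nat.le_add_right p h),
          sum_union (Ioc_disjoint_Ioc_of_le le_rfl)]
        ring
      have hexp : (h : ℝ) / (3 * L) ≤ Thin.logSum p h := by
        unfold Thin.logSum
        have hcard : ((Ioc p (p + h)).card : ℝ) = h := by rw [Nat.card_Ioc]; congr 1; omega
        calc (h : ℝ) / (3 * L) = ∑ _j ∈ Ioc p (p + h), 1 / (3 * L) := by rw [sum_const, nsmul_eq_mul, hcard, mul_one_div]
          _ ≤ _ := by
            apply sum_le_sum
            intro j hj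
            rw [mem_Ioc] at hj
            have h1 : (1 : ℝ) < j := by exact_mod_cast (by have := hp.two_le; omega : 1 < j)
            have h2 : (j : ℝ) ≤ X := by
              have h3 : j ≤ X := by
                rw [hX]
                nlinarith
              exact_mod_cast h3
            apply one_div_le_one_div_of_le (Real.log_pos h1)
            have h4 : Real.log (j : ℝ) ≤ LX := Real.log_le_log (by linarith) h2
            linarith
      have hpos : 0 < (Thin.count q (p % q) (m ^ 2) (y + h) : ℝ) - Thin.count q (p % q) (m ^ 2) y := by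
        have h1 : (16 * N : ℝ) / L ^ (3 * A + 4) < (Thin.logSum (m ^ 2) (y + h) - Thin.logSum (m ^ 2) y) / Nat.totient q := by
          rw [hdiff]
          have h2 : (N : ℝ) / (3 * L ^ (3 * A + 2)) ≤ Thin.logSum p h / Nat.totient q := by
            calc (N : ℝ) / (3 * L ^ (3 * A + 2)) ≤ (m * L ^ (A + 1)) / (3 * L ^ (3 * A + 2)) :=
                  div_le_div_of_nonneg_right hmL (by positivity)
              _ = δ * m / (3 * L) / L ^ A := by
                  rw [hδ, show 3 * A + 2 = (A + 1) + A + A + 1 by ring, pow_add L (A + 1 + A + A) 1,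
                    pow_add L (A + 1 + A) A, pow_add L (A + 1) A]
                  field_simp
              _ ≤ h / (3 * L) / L ^ A := by
                  apply div_le_div_of_nonneg_right _ (by positivity)
                  exact div_le_div_of_nonneg_right hh1 (by positivity)
              _ ≤ Thin.logSum p h / L ^ A := div_le_div_of_nonneg_right hexp (by positivity)
              _ ≤ Thin.logSum p h / Nat.totient q := by
                  apply div_le_div_of_nonneg_left _ hφ0 hφL
                  exact le_trans (by positivity) hexp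
          refine lt_of_lt_of_le ?_ h2
          have hP : L ^ (3 * A + 4) = L ^ (3 * A + 2) * L ^ 2 := by rw [← pow_add]
          rw [hP, div_lt_div_iff₀ (by positivity) (by positivity)]
          have h3 : 48 < L ^ 2 := by nlinarith
          have h4 : 0 < (N : ℝ) * L ^ (3 * A + 2) := by positivity
          calc 16 * (N : ℝ) * (3 * L ^ (3 * A + 2)) = (N : ℝ) * L ^ (3 * A + 2) * 48 := by ring
            _ < (N : ℝ) * L ^ (3 * A + 2) * L ^ 2 := mul_lt_mul_of_pos_left h3 h4
            _ = N * (L ^ (3 * A + 2) * L ^ 2) := by ring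
        have h5 : (Thin.logSum (m ^ 2) (y + h) - Thin.logSum (m ^ 2) y) / Nat.totient q =
            Thin.logSum (m ^ 2) (y + h) / Nat.totient q - Thin.logSum (m ^ 2) y / Nat.totient q := by ring
        have h6 : (16 * N : ℝ) / L ^ (3 * A + 4) = 8 * N / L ^ (3 * A + 4) + 8 * N / L ^ (3 * A + 4) := by ring
        rw [h5, h6] at h1
        linarith
      -- the prime
      have hlt : Thin.count q (p % q) (m ^ 2) y < Thin.count q (p % q) (m ^ 2) (y + h) := by
        have : (Thin.count q (p % q) (m ^ 2) y : ℝ) < Thin.count q (p % q) (m ^ 2) (y + h) := by linarith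
        exact_mod_cast this
      unfold Thin.count at hlt
      obtain ⟨s, hs1, hs2⟩ := exists_mem_notMem_of_card_lt_card hlt
      rw [mem_filter, mem_Ioc] at hs1
      rw [mem_filter, mem_Ioc] at hs2
      have hps : p < s := by
        by_contra hcon
        exact hs2 ⟨⟨hs1.1.1, by omega⟩, hs1.2⟩
      have hsh : s ≤ p + h := by omega
      refine ⟨s, hs1.2.1, hs1.2.2, hps, ?_⟩
      have h7 : Real.sqrt s ≤ Real.sqrt p + δ := by
        rw [Real.sqrt_le_left (by positivity)]
        have h8 := Real.sq_sqrt (Nat.cast_nonneg (α := ℝ) p)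
        have h9 : (s : ℝ) ≤ p + h := by exact_mod_cast hsh
        nlinarith
      linarith
    · -- (2)
      intro Q hQ α hα
      have hQK := hQ.trans hQ2
      choose y hy1 hy2 hy3 using fun q r => count_eq (q := q) (r := r) (hα q r).1 (hα q r).2 (show 1 ≤ m by omega)
      have h1 := Thin.good_classes hg Q hQK y (fun q r => (hy1 q r).trans (by omega))
      have hQN : (Q : ℝ) ≤ N := by
        refine hQ.trans ?_
        calc (N : ℝ) * Real.exp (-(((4 * B : ℕ) : ℝ) * Real.log L ^ 2)) ≤ N * 1 := by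
              apply mul_le_mul_of_nonneg_left _ hN0.le
              apply Real.exp_le_one_iff.2
              have : 0 ≤ ((4 * B : ℕ) : ℝ) * Real.log L ^ 2 := by positivity
              linarith
          _ = N := mul_one _
      have hterm : ∀ q ∈ Icc 1 Q, ∀ r : ℕ, ((count q r m (α q r) : ℝ) -
          ((m + α q r) ^ 2 - m ^ 2) / (2 * Nat.totient q * Real.log m)) ^ 2 ≤
          2 * ((Thin.count q r (m ^ 2) (y q r) : ℝ) - Thin.logSum (m ^ 2) (y q r) / Nat.totient q) ^ 2 +
            98 * (1 / (Nat.totient q : ℝ)) ^ 2 := by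
        intro q hq r
        rw [mem_Icc] at hq
        have hφ0 : (0 : ℝ) < Nat.totient q := by exact_mod_cast Nat.totient_pos.2 (by omega)
        rw [hy3 q r]
        set c : ℝ := (Thin.count q r (m ^ 2) (y q r) : ℝ) with hc
        set l : ℝ := Thin.logSum (m ^ 2) (y q r) with hl
        set w : ℝ := ((m + α q r) ^ 2 - m ^ 2) with hw
        have h2 : |l - w / (2 * Real.log m)| ≤ 7 := by
          have h3 := logSum_sq hm3 (hy1 q r)
          have h4 : |(y q r : ℝ) / (2 * Real.log m) - w / (2 * Real.log m)| ≤ 1 := by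
            rw [← sub_div, abs_div, abs_of_pos (by positivity : 0 < 2 * Real.log m), div_le_one (by positivity)]
            exact (hy2 q r).trans (by linarith)
          calc |l - w / (2 * Real.log m)| ≤ |l - (y q r : ℝ) / (2 * Real.log m)| +
                |(y q r : ℝ) / (2 * Real.log m) - w / (2 * Real.log m)| := abs_sub_le _ _ _
            _ ≤ 7 := by linarith
        have h5 : w / (2 * Nat.totient q * Real.log m) = w / (2 * Real.log m) * (1 / Nat.totient q) := by
          field_simp
        have h6 : c - w / (2 * Nat.totient q * Real.log m) =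
            (c - l / Nat.totient q) + (l - w / (2 * Real.log m)) * (1 / Nat.totient q) := by
          rw [h5]
          ring
        rw [h6]
        have h7 : (l - w / (2 * Real.log m)) ^ 2 ≤ 49 := by
          rw [abs_le] at h2
          nlinarith
        have h8 : ((l - w / (2 * Real.log m)) * (1 / (Nat.totient q : ℝ))) ^ 2 ≤ 49 * (1 / (Nat.totient q : ℝ)) ^ 2 := by
          rw [mul_pow]
          exact mul_le_mul_of_nonneg_right h7 (sq_nonneg _)
        nlinarith [sq_nonneg ((c - l / Nat.totient q) - (l - w / (2 * Real.log m)) * (1 / (Nat.totient q : ℝ)))]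
      have hsmall : ∀ q ∈ Icc 1 Q, ∑ _r ∈ (range q).filter (fun r => r.Coprime q), 98 * (1 / (Nat.totient q : ℝ)) ^ 2 ≤ 98 := by
        intro q hq
        rw [mem_Icc] at hq
        have hφ0 : (1 : ℝ) ≤ Nat.totient q := by exact_mod_cast Nat.totient_pos.2 (by omega)
        rw [sum_const, nsmul_eq_mul, card_cop]
        have h2 : (Nat.totient q : ℝ) * (98 * (1 / (Nat.totient q : ℝ)) ^ 2) = 98 * (1 / Nat.totient q) := by
          field_simp
        rw [h2]
        have h3 : 1 / (Nat.totient q : ℝ) ≤ 1 := by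
          rw [div_le_one (by linarith)]
          exact hφ0
        linarith
      calc ∑ q ∈ Icc 1 Q, ∑ r ∈ (range q).filter (fun r => r.Coprime q), ((count q r m (α q r) : ℝ) -
          ((m + α q r) ^ 2 - m ^ 2) / (2 * Nat.totient q * Real.log m)) ^ 2 ≤
          ∑ q ∈ Icc 1 Q, ∑ r ∈ (range q).filter (fun r => r.Coprime q),
            (2 * ((Thin.count q r (m ^ 2) (y q r) : ℝ) - Thin.logSum (m ^ 2) (y q r) / Nat.totient q) ^ 2 +
            98 * (1 / (Nat.totient q : ℝ)) ^ 2) :=
            sum_le_sum fun q hq => sum_le_sum fun r _ => hterm q hq r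
        _ = 2 * (∑ q ∈ Icc 1 Q, ∑ r ∈ (range q).filter (fun r => r.Coprime q),
            ((Thin.count q r (m ^ 2) (y q r) : ℝ) - Thin.logSum (m ^ 2) (y q r) / Nat.totient q) ^ 2) +
            ∑ q ∈ Icc 1 Q, ∑ _r ∈ (range q).filter (fun r => r.Coprime q), 98 * (1 / (Nat.totient q : ℝ)) ^ 2 := by
            rw [mul_sum, ← sum_add_distrib]
            apply sum_congr rfl
            intro q _
            rw [mul_sum, ← sum_add_distrib]
        _ ≤ 2 * (((8 * N : ℕ) : ℝ) ^ 2 / LX ^ (6 * A + 7 + 1)) + ∑ _q ∈ Icc 1 Q, (98 : ℝ) := by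
            apply add_le_add
            · exact mul_le_mul_of_nonneg_left h1 (by norm_num)
            · exact sum_le_sum hsmall
        _ ≤ (1 / 2) * ((N : ℝ) ^ 2 / L ^ A) + (1 / 2) * ((N : ℝ) ^ 2 / L ^ A) := by
            apply add_le_add
            · push_cast
              calc 2 * ((8 * (N : ℝ)) ^ 2 / LX ^ (6 * A + 7 + 1)) ≤ 2 * ((8 * (N : ℝ)) ^ 2 / (L ^ A * 256)) := by
                    apply mul_le_mul_of_nonneg_left _ (by norm_num)
                    apply div_le_div_of_nonneg_left (by positivity) (by positivity)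
                    calc L ^ A * 256 ≤ L ^ A * (L * L) := by
                          apply mul_le_mul_of_nonneg_left _ (by positivity)
                          nlinarith
                      _ = L ^ (A + 2) := by ring
                      _ ≤ L ^ (6 * A + 7 + 1) := hpowle (by omega)
                      _ ≤ _ := hpowX _
                _ = (1 / 2) * ((N : ℝ) ^ 2 / L ^ A) := by
                    field_simp
                    ring
            · rw [sum_const, nsmul_eq_mul, Nat.card_Icc, Nat.add_sub_cancel]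
              have h9 : (Q : ℝ) * 98 ≤ N * 98 := mul_le_mul_of_nonneg_right hQN (by norm_num)
              refine h9.trans ?_
              rw [← mul_div_assoc, le_div_iff₀ (by positivity)]
              have h10 : 200 * L ^ A ≤ N := by
                have h11 : L ^ A ≤ L ^ (3 * A + 8) := hpowle (by omega)
                have h12 := hone A
                linarith
              nlinarith
        _ = _ := by ring
  -- collect
  set E := (Icc 1 N).filter (fun m => ¬ Pool.Agent.helper24_UT.Good28 (6 * A + 7 + 1) B X (8 * N) (m ^ 2)) with hE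
  have hsub : (Icc 1 N).filter (fun m => ¬ (SmallDifferences A N m ∧ Equidistributed A (4 * B) N m)) ⊆
      E ∪ ((Icc 1 N).filter (fun m : ℕ => (m : ℝ) ≤ T)) := by
    intro m hm
    rw [mem_filter] at hm
    rw [mem_union, hE, mem_filter, mem_filter]
    by_contra hcon
    rw [not_or] at hcon
    apply hm.2
    apply hgood m (mem_Icc.1 hm.1).2
    · by_contra h1
      exact hcon.2 ⟨hm.1, not_lt.1 h1⟩
    · by_contra h1
      exact hcon.1 ⟨hm.1, h1⟩
  have hcard2 : (((Icc 1 N).filter (fun m : ℕ => (m : ℝ) ≤ T)).card : ℝ) ≤ (1 / 2) * (N / L ^ A) := by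
    have h5 : (Icc 1 N).filter (fun m : ℕ => (m : ℝ) ≤ T) ⊆ Icc 1 ⌊T⌋₊ := by
      intro n hn
      rw [mem_filter, mem_Icc] at hn
      rw [mem_Icc]
      exact ⟨hn.1.1, Nat.le_floor hn.2⟩
    have h6 := card_le_card h5
    rw [Nat.card_Icc, Nat.add_sub_cancel] at h6
    refine (Nat.cast_le.2 h6).trans ((Nat.floor_le hT0.le).trans ?_)
    rw [hT, pow_succ]
    calc (N : ℝ) / (L ^ A * L) ≤ N / (L ^ A * 2) := by
          apply div_le_div_of_nonneg_left hN0.le (by positivity)
          exact mul_le_mul_of_nonneg_left (by linarith) (by positivity)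
      _ = _ := by ring
  have hcard1 : (E.card : ℝ) ≤ (1 / 2) * (N / L ^ A) := by
    refine hexc.trans ?_
    calc (N : ℝ) / L ^ (6 * A + 7) ≤ N / (L ^ A * 2) := by
          apply div_le_div_of_nonneg_left hN0.le (by positivity)
          calc L ^ A * 2 ≤ L ^ A * L := mul_le_mul_of_nonneg_left (by linarith) (by positivity)
            _ = L ^ (A + 1) := by ring
            _ ≤ L ^ (6 * A + 7) := hpowle (by omega)
      _ = _ := by ring
  calc (((Icc 1 N).filter (fun m => ¬ (SmallDifferences A N m ∧ Equidistributed A (4 * B) N m))).card : ℝ) ≤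
      (E.card : ℝ) + ((Icc 1 N).filter (fun m : ℕ => (m : ℝ) ≤ T)).card := by
        have := (card_le_card hsub).trans (card_union_le _ _)
        exact_mod_cast this
    _ ≤ (1 / 2) * (N / L ^ A) + (1 / 2) * (N / L ^ A) := add_le_add hcard1 hcard2
    _ = _ := by ring

end Pool.Agent.Results.MP_3998cf_nt.RootsEquidistributed
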